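import Mathlib
import Pool.Agent.Helper88.TU.Goals
import Pool.Agent.Helper31.LG.SM

/-!
# TU-BM: the main terms of the Brun-Hooley sieve
-/

set_option autoImplicit false

open Finset Filter Topology

open scoped Classical

namespace Pool.Agent.Helper57.TU

open Pool.Agent.Helper88.PP (pr)
open Pool.Agent.Helper88.RR (gg)
open Pool.Agent.Helper88.TU

/-! ### The partition of the primes -/

theorem two_le_of_mem_pr {y z p : ℕ} (hp : p ∈ pr y z) : 2 ≤ p := by
  unfold pr at hp
  rw [mem_filter] at hp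
  exact hp.2.two_le

theorem exists_range {y z p : ℕ} (hz : 1 ≤ z) (hp : p ∈ pr y z) :
    ∃ t < z, p ∈ Pt y z t := by
  have h2 := two_le_of_mem_pr hp
  have hpz : p ≤ z := by
    unfold pr at hp
    rw [mem_filter, mem_Ioc] at hp
    exact hp.1.2
  have hbig : z < p ^ 2 ^ z := by
    calc z < 2 ^ z := Nat.lt_two_pow_self
      _ ≤ 2 ^ 2 ^ z := Nat.pow_le_pow_right (by norm_num) Nat.lt_two_pow_self.le
      _ ≤ p ^ 2 ^ z := Nat.pow_le_pow_left h2 _
  have hex : ∃ t, z < p ^ 2 ^ (t + 1) := by
    refine ⟨z, hbig.trans_le ?_⟩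
    exact Nat.pow_le_pow_right (by omega) (Nat.pow_le_pow_right (by norm_num) (by omega))
  refine ⟨Nat.find hex, ?_, ?_⟩
  · have h3 : Nat.find hex ≤ z - 1 := by
      apply Nat.find_min'
      have : z - 1 + 1 = z := by omega
      rw [this]
      exact hbig
    omega
  · unfold Pt
    rw [mem_filter]
    refine ⟨hp, Nat.find_spec hex, ?_⟩
    rcases Nat.eq_zero_or_pos (Nat.find hex) with h0 | h0
    · rw [h0]
      simpa using hpz
    · have h4 := Nat.find_min hex (m := Nat.find hex - 1) (by omega)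
      have h5 : Nat.find hex - 1 + 1 = Nat.find hex := by omega
      rw [h5] at h4
      omega

theorem Pt_disjoint {y z s t : ℕ} (hst : s ≠ t) : Disjoint (Pt y z s) (Pt y z t) := by
  have key : ∀ s t : ℕ, s < t → Disjoint (Pt y z s) (Pt y z t) := by
    intro s t hst
    rw [disjoint_left]
    intro p hp hq
    unfold Pt at hp hq
    rw [mem_filter] at hp hq
    have h2 := two_le_of_mem_pr hp.1
    have : p ^ 2 ^ (s + 1) ≤ p ^ 2 ^ t :=
      Nat.pow_le_pow_right (by omega) (Nat.pow_le_pow_right (by norm_num) (by omega))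
    omega
  rcases lt_or_gt_of_ne hst with h | h
  · exact key s t h
  · exact (key t s h).symm

theorem Pt_subset (y z t : ℕ) : Pt y z t ⊆ pr y z := filter_subset _ _

theorem pr_eq_biUnion {y z : ℕ} (hz : 1 ≤ z) : pr y z = (range z).biUnion (Pt y z) := by
  ext p
  rw [mem_biUnion]
  constructor
  · intro hp
    obtain ⟨t, ht, hpt⟩ := exists_range hz hp
    exact ⟨t, mem_range.mpr ht, hpt⟩
  · rintro ⟨t, -, hpt⟩
    exact Pt_subset y z t hpt

/-! ### Factorisation of the sums over sets of primes -/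

/-- Sums over the subsets of a disjoint union, with conditions on the parts. -/
theorem sum_biUnion_powerset (P : ℕ → Finset ℕ) (hP : ∀ s t, s ≠ t → Disjoint (P s) (P t))
    (c : ℕ → Finset ℕ → Prop) (f : Finset ℕ → ℝ)
    (hf1 : f ∅ = 1) (hf : ∀ A B, Disjoint A B → f (A ∪ B) = f A * f B) (T : Finset ℕ) :
    ∑ A ∈ ((T.biUnion P).powerset).filter (fun A => ∀ t ∈ T, c t (A ∩ P t)), f A =
      ∏ t ∈ T, ∑ A ∈ ((P t).powerset).filter (fun A => c t A), f A := by
  induction T using Finset.induction_on with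
  | empty =>
    simp [hf1, Finset.filter_singleton]
  | insert a T ha ih =>
    rw [prod_insert ha, ← ih, sum_mul_sum, ← sum_product']
    symm
    have hdis : Disjoint (P a) (T.biUnion P) := by
      rw [disjoint_biUnion_right]
      intro t ht
      exact hP a t (fun h => ha (h ▸ ht))
    refine sum_nbij' (fun AB => AB.1 ∪ AB.2) (fun A => (A ∩ P a, A ∩ T.biUnion P)) ?_ ?_ ?_ ?_ ?_
    · rintro ⟨A, B⟩ hAB
      simp only [mem_product, mem_filter, mem_powerset] at hAB ⊢
      obtain ⟨⟨hA, hcA⟩, hB, hcB⟩ := hAB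
      refine ⟨?_, ?_⟩
      · rw [biUnion_insert]
        exact union_subset_union hA hB
      · intro t ht
        rw [mem_insert] at ht
        rcases ht with rfl | ht
        · have : (A ∪ B) ∩ P t = A := by
            rw [union_inter_distrib_right, inter_eq_left.mpr hA,
              (disjoint_iff_inter_eq_empty.mp ((hdis.mono_right hB).symm)), union_empty]
          rw [this]
          exact hcA
        · have hta : t ≠ a := fun h => ha (h ▸ ht)
          have : (A ∪ B) ∩ P t = B ∩ P t := by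
            rw [union_inter_distrib_right]
            have h0 : A ∩ P t = ∅ := disjoint_iff_inter_eq_empty.mp
              ((hP a t hta.symm).mono_left hA)
            rw [h0, empty_union]
          rw [this]
          exact hcB t ht
    · intro A hA
      simp only [mem_product, mem_filter, mem_powerset] at hA ⊢
      obtain ⟨hA, hc⟩ := hA
      refine ⟨⟨inter_subset_right, hc a (mem_insert_self a T)⟩, inter_subset_right, ?_⟩
      intro t ht
      have : A ∩ T.biUnion P ∩ P t = A ∩ P t := by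
        rw [inter_assoc]
        congr 1
        exact inter_eq_right.mpr (subset_biUnion_of_mem P ht)
      rw [this]
      exact hc t (mem_insert_of_mem ht)
    · rintro ⟨A, B⟩ hAB
      simp only [mem_product, mem_filter, mem_powerset] at hAB
      obtain ⟨⟨hA, hcA⟩, hB, hcB⟩ := hAB
      have h1 : (A ∪ B) ∩ P a = A := by
        rw [union_inter_distrib_right, inter_eq_left.mpr hA,
          (disjoint_iff_inter_eq_empty.mp ((hdis.mono_right hB).symm)), union_empty]
      have h2 : (A ∪ B) ∩ T.biUnion P = B := by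
        rw [union_inter_distrib_right, inter_eq_left.mpr hB,
          (disjoint_iff_inter_eq_empty.mp (hdis.mono_left hA)), empty_union]
      simp only [h1, h2]
    · intro A hA
      simp only [mem_filter, mem_powerset] at hA
      simp only
      rw [← inter_union_distrib_left, ← biUnion_insert]
      exact inter_eq_left.mpr hA.1
    · rintro ⟨A, B⟩ hAB
      simp only [mem_product, mem_filter, mem_powerset] at hAB
      simp only
      rw [hf A B ((hdis.mono_left hAB.1.1).mono_right hAB.2.1)]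

/-! ### Bonferroni -/

/-- elementary symmetric function -/
noncomputable def es (x : ℕ → ℝ) (P : Finset ℕ) (m : ℕ) : ℝ :=
  ∑ A ∈ P.powerset.filter (fun A => A.card = m), ∏ p ∈ A, x p

/-- truncated expansion of the product -/
noncomputable def tr (x : ℕ → ℝ) (P : Finset ℕ) (m : ℕ) : ℝ :=
  ∑ A ∈ P.powerset.filter (fun A => A.card < m), ∏ p ∈ A, (-x p)

theorem sum_powerset_insert_filter (f : Finset ℕ → ℝ) (c : ℕ → Prop) [DecidablePred c]
    (P : Finset ℕ) (a : ℕ) (ha : a ∉ P) :
    ∑ A ∈ (insert a P).powerset.filter (fun A => c A.card), f A =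
      ∑ A ∈ P.powerset.filter (fun A => c A.card), f A +
        ∑ A ∈ P.powerset.filter (fun A => c (A.card + 1)), f (insert a A) := by
  rw [sum_filter, sum_filter, sum_filter, sum_powerset_insert ha]
  congr 1
  refine sum_congr rfl fun A hA => ?_
  rw [mem_powerset] at hA
  rw [card_insert_of_notMem (fun h => ha (hA h))]

theorem es_insert (x : ℕ → ℝ) (P : Finset ℕ) (a : ℕ) (ha : a ∉ P) (m : ℕ) :
    es x (insert a P) (m + 1) = es x P (m + 1) + x a * es x P m := by
  unfold es
  rw [sum_powerset_insert_filter (fun A => ∏ p ∈ A, x p) (fun k => k = m + 1) P a ha, mul_sum]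
  congr 1
  have : (P.powerset.filter fun A => A.card + 1 = m + 1) =
      P.powerset.filter fun A => A.card = m := by
    ext A
    simp
  rw [this]
  refine sum_congr rfl fun A hA => ?_
  rw [mem_filter, mem_powerset] at hA
  rw [prod_insert (fun h => ha (hA.1 h))]

theorem tr_insert (x : ℕ → ℝ) (P : Finset ℕ) (a : ℕ) (ha : a ∉ P) (m : ℕ) :
    tr x (insert a P) (m + 1) = tr x P (m + 1) - x a * tr x P m := by
  unfold tr
  rw [sum_powerset_insert_filter (fun A => ∏ p ∈ A, (-x p)) (fun k => k < m + 1) P a ha, mul_sum,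
    sub_eq_add_neg, ← sum_neg_distrib]
  congr 1
  have : (P.powerset.filter fun A => A.card + 1 < m + 1) =
      P.powerset.filter fun A => A.card < m := by
    ext A
    simp
  rw [this]
  refine sum_congr rfl fun A hA => ?_
  rw [mem_filter, mem_powerset] at hA
  rw [prod_insert (fun h => ha (hA.1 h))]
  ring

theorem es_zero (x : ℕ → ℝ) (P : Finset ℕ) : es x P 0 = 1 := by
  unfold es
  have : (P.powerset.filter fun A => A.card = 0) = {∅} := by
    ext A
    simp only [mem_filter, mem_powerset, card_eq_zero, mem_singleton]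
    constructor
    · exact fun h => h.2
    · rintro rfl
      exact ⟨empty_subset _, rfl⟩
  rw [this]
  simp

theorem tr_zero (x : ℕ → ℝ) (P : Finset ℕ) : tr x P 0 = 0 := by
  unfold tr
  simp

theorem es_nonneg (x : ℕ → ℝ) (P : Finset ℕ) (hx : ∀ p ∈ P, 0 ≤ x p) (m : ℕ) : 0 ≤ es x P m := by
  unfold es
  refine sum_nonneg fun A hA => prod_nonneg fun p hp => ?_
  rw [mem_filter, mem_powerset] at hA
  exact hx p (hA.1 hp)

theorem bonferroni (x : ℕ → ℝ) (P : Finset ℕ) (hx : ∀ p ∈ P, 0 ≤ x p ∧ x p ≤ 1) (m : ℕ) :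
    0 ≤ (-1 : ℝ) ^ m * (∏ p ∈ P, (1 - x p) - tr x P m) ∧
      (-1 : ℝ) ^ m * (∏ p ∈ P, (1 - x p) - tr x P m) ≤ es x P m := by
  induction P using Finset.induction_on generalizing m with
  | empty =>
    rcases m with _ | m
    · simp [tr_zero, es_zero]
    · have h1 : tr x ∅ (m + 1) = 1 := by
        unfold tr
        simp [Finset.filter_singleton]
      have h2 : es x ∅ (m + 1) = 0 := by
        unfold es
        simp [Finset.filter_singleton]
      simp [h1, h2]
  | insert a P ha ih =>
    have hx' : ∀ p ∈ P, 0 ≤ x p ∧ x p ≤ 1 := fun p hp => hx p (mem_insert_of_mem hp)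
    obtain ⟨ha0, ha1⟩ := hx a (mem_insert_self a P)
    rcases m with _ | m
    · rw [tr_zero, es_zero]
      have h1 : 0 ≤ ∏ p ∈ insert a P, (1 - x p) :=
        prod_nonneg fun p hp => by linarith [(hx p hp).2]
      have h2 : ∏ p ∈ insert a P, (1 - x p) ≤ 1 :=
        prod_le_one (fun p hp => by linarith [(hx p hp).2]) fun p hp => by
          linarith [(hx p hp).1]
      constructor <;> simp <;> assumption
    · rw [prod_insert ha, tr_insert x P a ha m, es_insert x P a ha m]
      obtain ⟨i1, i2⟩ := ih hx' (m + 1)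
      obtain ⟨j1, j2⟩ := ih hx' m
      have e : (-1 : ℝ) ^ (m + 1) * ((1 - x a) * ∏ p ∈ P, (1 - x p) -
          (tr x P (m + 1) - x a * tr x P m)) =
          (-1 : ℝ) ^ (m + 1) * (∏ p ∈ P, (1 - x p) - tr x P (m + 1)) +
            x a * ((-1 : ℝ) ^ m * (∏ p ∈ P, (1 - x p) - tr x P m)) := by
        rw [pow_succ]
        ring
      rw [e]
      constructor
      · have := mul_nonneg ha0 j1
        linarith
      · have := mul_le_mul_of_nonneg_left j2 ha0
        linarith

/-- Rankin's trick. -/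
theorem es_le (x : ℕ → ℝ) (P : Finset ℕ) (hx : ∀ p ∈ P, 0 ≤ x p) (m : ℕ) (l : ℝ) (hl : 0 < l) :
    es x P m ≤ Real.exp (l * ∑ p ∈ P, x p) / l ^ m := by
  rw [le_div_iff₀ (by positivity)]
  have h1 : es x P m * l ^ m = es (fun p => l * x p) P m := by
    unfold es
    rw [sum_mul]
    refine sum_congr rfl fun A hA => ?_
    rw [mem_filter] at hA
    rw [prod_mul_distrib, prod_const, hA.2, mul_comm]
  rw [h1]
  have h2 : es (fun p => l * x p) P m ≤ ∏ p ∈ P, (1 + l * x p) := by
    rw [prod_one_add]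
    unfold es
    refine sum_le_sum_of_subset_of_nonneg (filter_subset _ _) fun A hA _ => ?_
    rw [mem_powerset] at hA
    exact prod_nonneg fun p hp => mul_nonneg hl.le (hx p (hA hp))
  refine h2.trans ?_
  rw [mul_sum, Real.exp_sum]
  refine prod_le_prod (fun p hp => ?_) fun p hp => ?_
  · have := mul_nonneg hl.le (hx p hp)
    linarith
  · have := Real.add_one_le_exp (l * x p)
    linarith

/-! ### Mertens -/

theorem Lbound : ∃ C : ℝ, 0 < C ∧ ∀ y z t : ℕ, ∑ p ∈ Pt y z t, 1 / (p : ℝ) ≤ 2 * C := by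
  obtain ⟨C, hC0, hC⟩ := Pool.Agent.Helper31.LG.mertens
  refine ⟨C, hC0, fun y z t => ?_⟩
  rcases (Pt y z t).eq_empty_or_nonempty with h | h
  · rw [h]
    simp
    positivity
  · set w := (Pt y z t).min' h with hw
    have hwm : w ∈ Pt y z t := min'_mem _ h
    have hw2 : 2 ≤ w := two_le_of_mem_pr (Pt_subset y z t hwm)
    have hlw : 0 < Real.log w := Real.log_pos (by exact_mod_cast hw2)
    have h3 := hC (w ^ 2) (by nlinarith)
    have h4 : ∑ p ∈ Pt y z t, Real.log w * (1 / (p : ℝ)) ≤
        ∑ p ∈ (Icc 1 (w ^ 2)).filter Nat.Prime, Real.log p / p := by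
      calc ∑ p ∈ Pt y z t, Real.log w * (1 / (p : ℝ))
          ≤ ∑ p ∈ Pt y z t, Real.log p / p := by
            refine sum_le_sum fun p hp => ?_
            have hwp : w ≤ p := min'_le _ p hp
            rw [mul_one_div]
            refine div_le_div_of_nonneg_right ?_ (by positivity)
            exact Real.log_le_log (by exact_mod_cast (by omega : 0 < w)) (by exact_mod_cast hwp)
        _ ≤ _ := by
            refine sum_le_sum_of_subset_of_nonneg ?_ ?_
            · intro p hp
              have h5 := hp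
              have h6 := hwm
              unfold Pt at h5 h6
              rw [mem_filter] at h5 h6
              have hpp := h5.1
              unfold pr at hpp
              rw [mem_filter, mem_Ioc] at hpp
              rw [mem_filter, mem_Icc]
              refine ⟨⟨hpp.2.one_lt.le, ?_⟩, hpp.2⟩
              have h7 : p ^ 2 ^ t < (w ^ 2) ^ 2 ^ t := by
                calc p ^ 2 ^ t ≤ z := h5.2.2
                  _ < w ^ 2 ^ (t + 1) := h6.2.1
                  _ = (w ^ 2) ^ 2 ^ t := by
                    rw [← pow_mul]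
                    congr 1
                    rw [pow_succ]
                    ring
              exact (lt_of_pow_lt_pow_left₀ _ (by positivity) h7).le
            · intro p _ _
              exact div_nonneg (Real.log_natCast_nonneg p) (by positivity)
    rw [← mul_sum] at h4
    have h5 : Real.log ((w ^ 2 : ℕ) : ℝ) = 2 * Real.log w := by
      push_cast
      rw [Real.log_pow]
      norm_num
    rw [h5] at h3
    have h6 : Real.log w * ∑ p ∈ Pt y z t, 1 / (p : ℝ) ≤ Real.log w * (2 * C) := by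
      linarith
    exact le_of_mul_le_mul_left h6 hlw

/-! ### Sizes of the products -/

theorem sum_log_le {y z : ℕ} (hz : 1 ≤ z) (A : Finset ℕ) (hA : A ⊆ pr y z) (R : ℕ → ℝ)
    (hR : ∀ t < z, (((A ∩ Pt y z t).card : ℕ) : ℝ) ≤ R t) :
    ∑ p ∈ A, Real.log p ≤ Real.log z * ∑ t ∈ range z, R t / 2 ^ t := by
  have hAu : A = (range z).biUnion (fun t => A ∩ Pt y z t) := by
    rw [← inter_biUnion, ← pr_eq_biUnion hz]
    exact (inter_eq_left.mpr hA).symm
  conv_lhs => rw [hAu]
  rw [sum_biUnion (fun s _ t _ hst => (Pt_disjoint hst).mono inter_subset_right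
    inter_subset_right), mul_sum]
  refine sum_le_sum fun t ht => ?_
  have hlz : 0 ≤ Real.log z := Real.log_natCast_nonneg z
  have h1 : ∀ p ∈ A ∩ Pt y z t, Real.log p ≤ Real.log z / 2 ^ t := by
    intro p hp
    have hpt := (mem_inter.mp hp).2
    have h2 := two_le_of_mem_pr (Pt_subset y z t hpt)
    unfold Pt at hpt
    rw [mem_filter] at hpt
    rw [le_div_iff₀ (by positivity), mul_comm]
    have h3 : Real.log ((p : ℝ) ^ 2 ^ t) ≤ Real.log z := by
      apply Real.log_le_log
      · have : (0 : ℝ) < p := by exact_mod_cast (by omega : 0 < p)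
        positivity
      · exact_mod_cast hpt.2.2
    rw [Real.log_pow] at h3
    push_cast at h3
    exact h3
  calc ∑ p ∈ A ∩ Pt y z t, Real.log p ≤ ∑ p ∈ A ∩ Pt y z t, Real.log z / 2 ^ t := sum_le_sum h1
    _ = ((A ∩ Pt y z t).card : ℝ) * (Real.log z / 2 ^ t) := by
        rw [sum_const, nsmul_eq_mul]
    _ ≤ R t * (Real.log z / 2 ^ t) := by
        apply mul_le_mul_of_nonneg_right (hR t (mem_range.mp ht))
        positivity
    _ = Real.log z * (R t / 2 ^ t) := by ring

theorem sum_rt (E n : ℕ) : ∑ t ∈ range n, ((rt E t : ℕ) : ℝ) / 2 ^ t =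
    4 * ((E / 256 : ℕ) : ℝ) + 4 - (4 * ((E / 256 : ℕ) : ℝ) + 4 * n + 4) / 2 ^ n := by
  induction n with
  | zero => simp
  | succ n ih =>
    rw [sum_range_succ, ih]
    unfold rt
    push_cast
    rw [pow_succ]
    field_simp
    ring

theorem prod_le_of {y z E : ℕ} (hz : 2 ≤ z) (hE : 512 ≤ E) (A : Finset ℕ) (hA : A ⊆ pr y z)
    (t0 : ℕ) (hR : ∀ t < z, (A ∩ Pt y z t).card ≤ rt E t + if t = t0 then 1 else 0) :
    ∏ p ∈ A, p ≤ z ^ (E / 32) := by
  have h1 := sum_log_le (by omega) A hA (fun t => ((rt E t : ℕ) : ℝ) + if t = t0 then 1 else 0)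
    (fun t ht => by
      have := hR t ht
      have h2 : (((A ∩ Pt y z t).card : ℕ) : ℝ) ≤ ((rt E t + if t = t0 then 1 else 0 : ℕ) : ℝ) := by
        exact_mod_cast this
      push_cast at h2
      exact h2)
  have h2 : ∑ t ∈ range z, (((rt E t : ℕ) : ℝ) + if t = t0 then 1 else 0) / 2 ^ t ≤
      ((E / 32 : ℕ) : ℝ) := by
    have e : ∀ t ∈ range z, (((rt E t : ℕ) : ℝ) + if t = t0 then 1 else 0) / 2 ^ t =
        ((rt E t : ℕ) : ℝ) / 2 ^ t + if t = t0 then 1 / 2 ^ t else 0 := by
      intro t _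
      split_ifs <;> ring
    rw [sum_congr rfl e, sum_add_distrib, sum_rt]
    have h3 : ∑ t ∈ range z, (if t = t0 then (1 : ℝ) / 2 ^ t else 0) ≤ 1 := by
      rw [sum_ite_eq' (range z) t0 (fun t => (1 : ℝ) / 2 ^ t)]
      split_ifs
      · rw [div_le_one (by positivity)]
        exact one_le_pow₀ (by norm_num)
      · norm_num
    have h4 : (0 : ℝ) ≤ (4 * ((E / 256 : ℕ) : ℝ) + 4 * z + 4) / 2 ^ z := by positivity
    have h5 : (4 * ((E / 256 : ℕ) : ℝ) + 5) ≤ ((E / 32 : ℕ) : ℝ) := by
      have : 4 * (E / 256) + 5 ≤ E / 32 := by omega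
      exact_mod_cast this
    linarith
  have hlz : 0 ≤ Real.log z := Real.log_natCast_nonneg z
  have h3 : ∑ p ∈ A, Real.log p ≤ ((E / 32 : ℕ) : ℝ) * Real.log z := by
    refine h1.trans ?_
    rw [mul_comm]
    exact mul_le_mul_of_nonneg_right h2 hlz
  have hpos : ∀ p ∈ A, (0 : ℝ) < p := by
    intro p hp
    have := two_le_of_mem_pr (hA hp)
    exact_mod_cast (by omega : 0 < p)
  have h4 : Real.log (∏ p ∈ A, (p : ℝ)) ≤ Real.log ((z : ℝ) ^ (E / 32)) := by
    rw [Real.log_prod (fun p hp => (hpos p hp).ne'), Real.log_pow]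
    exact h3
  have hz0 : (0 : ℝ) < z := by exact_mod_cast (by omega : 0 < z)
  have h5 := (Real.log_le_log_iff (prod_pos hpos) (by positivity)).mp h4
  have h6 : ((∏ p ∈ A, p : ℕ) : ℝ) ≤ ((z ^ (E / 32) : ℕ) : ℝ) := by
    push_cast
    exact h5
  exact_mod_cast h6

/-! ### The main estimate for one range -/

theorem exp_le_one_sub {x : ℝ} (h0 : 0 ≤ x) (h1 : x ≤ 1 / 2) : Real.exp (-(2 * x)) ≤ 1 - x := by
  rw [Real.exp_neg, inv_le_comm₀ (Real.exp_pos _) (by linarith)]
  have h2 := Real.add_one_le_exp (2 * x)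
  refine le_trans ?_ h2
  rw [inv_le_comm₀ (by linarith) (by linarith)]
  rw [inv_eq_one_div, div_le_iff₀ (by linarith)]
  nlinarith

theorem range_bound : ∃ E0 : ℕ, ∀ E y z k t : ℕ, E0 ≤ E → E ^ 2 ≤ y → k ^ 2 ≤ E →
    (∀ p ∈ Pt y z t, 0 ≤ (k : ℝ) / p ∧ (k : ℝ) / p ≤ 1 / 2) ∧
    0 < ∏ p ∈ Pt y z t, (1 - (k : ℝ) / p) ∧
    es (fun p => (k : ℝ) / p) (Pt y z t) (rt E t + 1) ≤
      Real.exp (-(3 * E + t)) * ∏ p ∈ Pt y z t, (1 - (k : ℝ) / p) := by
  obtain ⟨C, hC0, hC⟩ := Lbound
  have hlim : Tendsto (fun E : ℕ => Real.log E) atTop atTop :=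
    Real.tendsto_log_atTop.comp tendsto_natCast_atTop_atTop
  obtain ⟨E1, hE1⟩ := eventually_atTop.mp (hlim.eventually_ge_atTop (512 * (6 * C + 3)))
  refine ⟨max E1 256, fun E y z k t hE hy hk => ?_⟩
  have hE1' := hE1 E ((le_max_left _ _).trans hE)
  have hE256 : 256 ≤ E := (le_max_right _ _).trans hE
  have hkE : k ≤ E := by nlinarith
  have hx : ∀ p ∈ Pt y z t, 0 ≤ (k : ℝ) / p ∧ (k : ℝ) / p ≤ 1 / 2 := by
    intro p hp
    have h1 := Pt_subset y z t hp
    unfold pr at h1
    rw [mem_filter, mem_Ioc] at h1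
    have h2 : 2 * k ≤ p := by nlinarith [h1.1.1]
    have hp0 : (0 : ℝ) < p := by exact_mod_cast h1.2.pos
    refine ⟨by positivity, ?_⟩
    rw [div_le_iff₀ hp0]
    have h3 : ((2 * k : ℕ) : ℝ) ≤ p := by exact_mod_cast h2
    push_cast at h3
    linarith
  refine ⟨hx, prod_pos fun p hp => by linarith [(hx p hp).2], ?_⟩
  have hEr : (256 : ℝ) ≤ E := by exact_mod_cast hE256
  have hkr : (k : ℝ) ≤ √(E : ℝ) := by
    apply Real.le_sqrt_of_sq_le
    exact_mod_cast hk
  have hsE : √(E : ℝ) ≤ E := by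
    rw [Real.sqrt_le_left (by positivity)]
    nlinarith
  have hs0 : 0 < √(E : ℝ) := Real.sqrt_pos.mpr (by linarith)
  have hsum : ∑ p ∈ Pt y z t, (k : ℝ) / p ≤ √(E : ℝ) * (2 * C) := by
    have : ∑ p ∈ Pt y z t, (k : ℝ) / p = k * ∑ p ∈ Pt y z t, 1 / (p : ℝ) := by
      rw [mul_sum]
      exact sum_congr rfl fun p _ => by ring
    rw [this]
    exact mul_le_mul hkr (hC y z t) (sum_nonneg fun p _ => by positivity) hs0.le
  -- lower bound for the product
  have hpi : Real.exp (-(2 * (√(E : ℝ) * (2 * C)))) ≤ ∏ p ∈ Pt y z t, (1 - (k : ℝ) / p) := by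
    calc Real.exp (-(2 * (√(E : ℝ) * (2 * C)))) ≤ Real.exp (-(2 * ∑ p ∈ Pt y z t, (k : ℝ) / p)) := by
          apply Real.exp_le_exp.mpr
          linarith
      _ = ∏ p ∈ Pt y z t, Real.exp (-(2 * ((k : ℝ) / p))) := by
          rw [← Real.exp_sum, mul_sum, sum_neg_distrib]
      _ ≤ _ := prod_le_prod (fun p _ => (Real.exp_pos _).le)
          fun p hp => exp_le_one_sub (hx p hp).1 (hx p hp).2
  -- upper bound for the elementary symmetric function
  have hes := es_le (fun p => (k : ℝ) / p) (Pt y z t) (fun p hp => (hx p hp).1) (rt E t + 1)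
    (√(E : ℝ)) hs0
  have hpow : √(E : ℝ) ^ (rt E t + 1) = Real.exp (((rt E t + 1 : ℕ) : ℝ) * (Real.log E / 2)) := by
    rw [← Real.log_sqrt (by linarith : (0 : ℝ) ≤ E), ← Real.log_pow, Real.exp_log (by positivity)]
  have hm : (E : ℝ) / 256 + 2 * t ≤ ((rt E t + 1 : ℕ) : ℝ) := by
    have h1 : E ≤ 256 * (E / 256) + 256 := by omega
    have h2 : (E : ℝ) ≤ 256 * ((E / 256 : ℕ) : ℝ) + 256 := by exact_mod_cast h1
    have h3 : (1 : ℝ) ≤ ((E / 256 : ℕ) : ℝ) := by
      have : 1 ≤ E / 256 := by omega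
      exact_mod_cast this
    unfold rt
    push_cast
    linarith
  have hlE : 0 < Real.log E := by nlinarith
  have h1 : es (fun p => (k : ℝ) / p) (Pt y z t) (rt E t + 1) ≤
      Real.exp (√(E : ℝ) * (√(E : ℝ) * (2 * C)) - (E / 256 + 2 * t) * (Real.log E / 2)) := by
    refine hes.trans ?_
    rw [hpow, ← Real.exp_sub]
    apply Real.exp_le_exp.mpr
    have h2 := mul_le_mul_of_nonneg_left hsum hs0.le
    have h3 := mul_le_mul_of_nonneg_right hm (by linarith : 0 ≤ Real.log E / 2)
    linarith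
  refine h1.trans ?_
  refine le_trans ?_ (mul_le_mul_of_nonneg_left hpi (Real.exp_pos _).le)
  rw [← Real.exp_add]
  apply Real.exp_le_exp.mpr
  have h4 : √(E : ℝ) * (√(E : ℝ) * (2 * C)) = 2 * C * E := by
    rw [← mul_assoc, Real.mul_self_sqrt (by linarith)]
    ring
  rw [h4]
  have h5 : 2 * (√(E : ℝ) * (2 * C)) ≤ 4 * C * E := by nlinarith
  have h6 : E * (512 * (6 * C + 3)) ≤ E * Real.log E :=
    mul_le_mul_of_nonneg_left hE1' (by linarith)
  have h7 : (t : ℝ) ≤ t * Real.log E := by
    have : (1 : ℝ) ≤ Real.log E := by nlinarith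
    have ht : (0 : ℝ) ≤ t := by positivity
    nlinarith
  nlinarith

/-! ### The theorem -/

theorem sum_exp_le (E n : ℕ) : ∑ t ∈ range n, Real.exp (-(3 * (E : ℝ) + t)) ≤
    2 * Real.exp (-(3 * (E : ℝ))) := by
  have h1 : ∀ t : ℕ, Real.exp (-(3 * (E : ℝ) + t)) ≤ Real.exp (-(3 * (E : ℝ))) * (1 / 2) ^ t := by
    intro t
    have e : Real.exp (-(3 * (E : ℝ) + t)) = Real.exp (-(3 * (E : ℝ))) * Real.exp (-1) ^ t := by
      rw [← Real.exp_nat_mul, ← Real.exp_add]
      congr 1
      ring
    rw [e]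
    have h2 : Real.exp (-1) ≤ 1 / 2 := by
      rw [Real.exp_neg, inv_eq_one_div]
      apply one_div_le_one_div_of_le (by norm_num)
      have := Real.add_one_le_exp (1 : ℝ)
      linarith
    gcongr
  have h2 : ∀ n : ℕ, ∑ t ∈ range n, ((1 : ℝ) / 2) ^ t ≤ 2 := by
    intro n
    have : ∑ t ∈ range n, ((1 : ℝ) / 2) ^ t = 2 - 2 * (1 / 2) ^ n := by
      induction n with
      | zero => simp
      | succ n ih => rw [sum_range_succ, ih, pow_succ]; ring
    rw [this]
    have : (0 : ℝ) ≤ 2 * (1 / 2) ^ n := by positivity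
    linarith
  calc ∑ t ∈ range n, Real.exp (-(3 * (E : ℝ) + t))
      ≤ ∑ t ∈ range n, Real.exp (-(3 * (E : ℝ))) * (1 / 2) ^ t := sum_le_sum fun t _ => h1 t
    _ = Real.exp (-(3 * (E : ℝ))) * ∑ t ∈ range n, ((1 : ℝ) / 2) ^ t := by rw [mul_sum]
    _ ≤ Real.exp (-(3 * (E : ℝ))) * 2 := by
        gcongr
        exact h2 n
    _ = _ := by ring

/-- the signed weights are multiplicative on disjoint unions -/
noncomputable def sw (k : ℕ) (A : Finset ℕ) : ℝ := (-1 : ℝ) ^ A.card * ∏ p ∈ A, ((k : ℝ) / p)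

theorem sw_eq (k : ℕ) (A : Finset ℕ) : sw k A = ∏ p ∈ A, (-((k : ℝ) / p)) := by
  unfold sw
  rw [prod_neg]

theorem sw_union (k : ℕ) (A B : Finset ℕ) (h : Disjoint A B) : sw k (A ∪ B) = sw k A * sw k B := by
  rw [sw_eq, sw_eq, sw_eq, prod_union h]

theorem bm : StmtBM := by
  obtain ⟨E0, hE0⟩ := range_bound
  refine ⟨max E0 512, fun E y z k hE hz hy hyz hk => ?_⟩
  have hEE0 : E0 ≤ E := (le_max_left _ _).trans hE
  have hE512 : 512 ≤ E := (le_max_right _ _).trans hE
  have hEr : (512 : ℝ) ≤ E := by exact_mod_cast hE512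
  have hz2 : 2 ≤ z := by
    have h1 : (2 : ℝ) ≤ z := by
      have := Real.add_one_le_exp (E : ℝ)
      linarith
    exact_mod_cast h1
  have hz1 : 1 ≤ z := by omega
  set x : ℕ → ℝ := fun p => (k : ℝ) / p with hx
  set U : ℕ → ℝ := fun t => tr x (Pt y z t) (rt E t + 1) with hU
  set V : ℕ → ℝ := fun t => es x (Pt y z t) (rt E t + 1) with hV
  set π : ℕ → ℝ := fun t => ∏ p ∈ Pt y z t, (1 - x p) with hπ
  set ε : ℕ → ℝ := fun t => Real.exp (-(3 * (E : ℝ) + t)) with hε
  have hε0 : ∀ t, 0 < ε t := fun t => Real.exp_pos _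
  have hrange := fun t => hE0 E y z k t hEE0 hy hk
  have hπ0 : ∀ t, 0 < π t := fun t => (hrange t).2.1
  have hVε : ∀ t, V t ≤ ε t * π t := fun t => (hrange t).2.2
  have hV0 : ∀ t, 0 ≤ V t := fun t => es_nonneg x _ (fun p hp => ((hrange t).1 p hp).1) _
  have hodd : ∀ t, (-1 : ℝ) ^ (rt E t + 1) = -1 := by
    intro t
    apply Odd.neg_one_pow
    unfold rt
    exact ⟨E / 256 + t, rfl⟩
  have hbon : ∀ t, π t ≤ U t ∧ U t ≤ π t + V t := by
    intro t
    have h1 := bonferroni x (Pt y z t) (fun p hp => ⟨((hrange t).1 p hp).1, by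
      have := ((hrange t).1 p hp).2
      linarith⟩) (rt E t + 1)
    rw [hodd t] at h1
    constructor
    · linarith [h1.1]
    · linarith [h1.2]
  have hU0 : ∀ t, 0 ≤ U t := fun t => (hπ0 t).le.trans (hbon t).1
  have hUε : ∀ t, U t ≤ (1 + ε t) * π t := by
    intro t
    have := (hbon t).2
    have := hVε t
    linarith
  -- the density
  have hgg : gg y z k = ∏ t ∈ range z, π t := by
    unfold gg
    rw [pr_eq_biUnion hz1, prod_biUnion (fun s _ t _ hst => Pt_disjoint hst)]
  have hgg0 : 0 < gg y z k := by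
    rw [hgg]
    exact prod_pos fun t _ => hπ0 t
  -- the sum of the errors
  have hσ : ∑ t ∈ range z, ε t ≤ 2 * Real.exp (-(3 * (E : ℝ))) := sum_exp_le E z
  have hσ0 : 0 ≤ ∑ t ∈ range z, ε t := sum_nonneg fun t _ => (hε0 t).le
  have hexp3 : Real.exp (-(3 * (E : ℝ))) = Real.exp (-(E : ℝ)) * Real.exp (-(2 * (E : ℝ))) := by
    rw [← Real.exp_add]
    congr 1
    ring
  have hexp2 : Real.exp (-(2 * (E : ℝ))) ≤ 1 / 8 := by
    rw [Real.exp_neg, inv_eq_one_div]
    apply one_div_le_one_div_of_le (by norm_num)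
    have := Real.add_one_le_exp (2 * (E : ℝ))
    linarith
  have hexp1 : Real.exp (-(E : ℝ)) ≤ 1 := by
    rw [Real.exp_le_one_iff]
    linarith
  have hexp0 := Real.exp_pos (-(E : ℝ))
  have hexp00 := Real.exp_pos (-(2 * (E : ℝ)))
  have hσ2 : ∑ t ∈ range z, ε t ≤ Real.exp (-(E : ℝ)) / 4 := by
    rw [hexp3] at hσ
    nlinarith
  have hprod : ∏ t ∈ range z, (1 + ε t) ≤ 1 + 2 * ∑ t ∈ range z, ε t := by
    calc ∏ t ∈ range z, (1 + ε t) ≤ ∏ t ∈ range z, Real.exp (ε t) := by
          refine prod_le_prod (fun t _ => by linarith [hε0 t]) fun t _ => ?_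
          have := Real.add_one_le_exp (ε t)
          linarith
      _ = Real.exp (∑ t ∈ range z, ε t) := by rw [Real.exp_sum]
      _ ≤ 1 + 2 * ∑ t ∈ range z, ε t := by
          set u := ∑ t ∈ range z, ε t
          have hu1 : u ≤ 1 / 2 := by linarith
          have h1 := exp_le_one_sub (x := u / 2) (by linarith) (by linarith)
          have h2 : Real.exp (-u) ≤ 1 - u / 2 := by
            have e : -(2 * (u / 2)) = -u := by ring
            rwa [e] at h1
          have h4 : Real.exp u * Real.exp (-u) = 1 := by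
            rw [← Real.exp_add]
            simp
          have h5 := Real.add_one_le_exp (-u)
          have h6 : 1 - u ≤ Real.exp (-u) := by linarith
          have h7 : Real.exp u * (1 - u) ≤ 1 := by
            calc Real.exp u * (1 - u) ≤ Real.exp u * Real.exp (-u) := by
                  gcongr
              _ = 1 := h4
          have h8 : 1 ≤ (1 + 2 * u) * (1 - u) := by nlinarith
          have h9 : Real.exp u * (1 - u) ≤ (1 + 2 * u) * (1 - u) := h7.trans h8
          exact le_of_mul_le_mul_right h9 (by linarith)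
  -- first sum
  have hfac1 : ∑ A ∈ AA E y z, (-1 : ℝ) ^ A.card * ∏ p ∈ A, ((k : ℝ) / p) =
      ∏ t ∈ range z, U t := by
    have h1 := sum_biUnion_powerset (Pt y z) (fun s t hst => Pt_disjoint hst)
      (fun t B => B.card ≤ rt E t) (sw k) (by simp [sw]) (sw_union k) (range z)
    rw [← pr_eq_biUnion hz1] at h1
    have h2 : AA E y z = ((pr y z).powerset).filter
        (fun A => ∀ t ∈ range z, (A ∩ Pt y z t).card ≤ rt E t) := by
      unfold AA
      ext A
      simp only [mem_filter, mem_range]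
    rw [h2]
    refine Eq.trans ?_ (h1.trans ?_)
    · refine sum_congr ?_ fun A _ => rfl
      ext A
      simp only [mem_filter]
    · refine prod_congr rfl fun t _ => ?_
      change _ = tr x (Pt y z t) (rt E t + 1)
      unfold tr
      refine sum_congr ?_ fun A _ => sw_eq k A
      ext A
      simp only [mem_filter]
      constructor
      · rintro ⟨a, b⟩
        exact ⟨a, by omega⟩
      · rintro ⟨a, b⟩
        exact ⟨a, by omega⟩
  have hfac2 : ∀ t ∈ range z, ∑ A ∈ AX E y z t, (-1 : ℝ) ^ A.card * ∏ p ∈ A, ((k : ℝ) / p) =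
      -(V t * ∏ s ∈ (range z).erase t, U s) := by
    intro t ht
    have h1 := sum_biUnion_powerset (Pt y z) (fun s t hst => Pt_disjoint hst)
      (fun s B => if s = t then B.card = rt E t + 1 else B.card ≤ rt E s) (sw k) (by simp [sw])
      (sw_union k) (range z)
    rw [← pr_eq_biUnion hz1, ← mul_prod_erase (range z) _ ht] at h1
    have h2 : AX E y z t = ((pr y z).powerset).filter (fun A => ∀ s ∈ range z,
        if s = t then (A ∩ Pt y z s).card = rt E t + 1 else (A ∩ Pt y z s).card ≤ rt E s) := by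
      unfold AX
      ext A
      simp only [mem_filter, mem_range]
      rw [mem_range] at ht
      constructor
      · rintro ⟨a, b, c⟩
        refine ⟨a, fun s hs => ?_⟩
        split_ifs with h
        · rw [h]
          exact b
        · exact c s hs h
      · rintro ⟨a, b⟩
        refine ⟨a, ?_, fun s hs hst => ?_⟩
        · have := b t ht
          rwa [if_pos rfl] at this
        · have := b s hs
          rwa [if_neg hst] at this
    rw [h2]
    refine Eq.trans ?_ (h1.trans ?_)
    · refine sum_congr ?_ fun A _ => rfl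
      ext A
      simp only [mem_filter]
    · rw [neg_mul_eq_neg_mul]
      congr 1
      · change _ = -es x (Pt y z t) (rt E t + 1)
        unfold es
        rw [← sum_neg_distrib]
        refine sum_congr ?_ fun A hA => ?_
        · ext A
          simp only [mem_filter, if_true]
        · rw [mem_filter] at hA
          unfold sw
          rw [hA.2, hodd t]
          ring
      · refine prod_congr rfl fun s hs => ?_
        have hst : s ≠ t := (mem_erase.mp hs).1
        change _ = tr x (Pt y z s) (rt E s + 1)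
        unfold tr
        refine sum_congr ?_ fun A _ => sw_eq k A
        ext A
        simp only [mem_filter, if_neg hst]
        constructor
        · rintro ⟨a, b⟩
          exact ⟨a, by omega⟩
        · rintro ⟨a, b⟩
          exact ⟨a, by omega⟩
  have hUprod : ∏ t ∈ range z, U t ≤ (∏ t ∈ range z, (1 + ε t)) * gg y z k := by
    rw [hgg, ← prod_mul_distrib]
    exact prod_le_prod (fun t _ => hU0 t) fun t _ => hUε t
  have hUlow : gg y z k ≤ ∏ t ∈ range z, U t := by
    rw [hgg]
    exact prod_le_prod (fun t _ => (hπ0 t).le) fun t _ => (hbon t).1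
  refine ⟨hgg0, ?_, ?_, ?_, ?_⟩
  · rw [hfac1, abs_of_nonneg (by linarith)]
    have h1 := mul_le_mul_of_nonneg_right hprod hgg0.le
    have h2 : 2 * ∑ t ∈ range z, ε t ≤ Real.exp (-(E : ℝ)) := by linarith
    nlinarith
  · rw [sum_congr rfl hfac2, sum_neg_distrib, neg_neg]
    have h1 : ∀ t ∈ range z, V t * ∏ s ∈ (range z).erase t, U s ≤
        ε t * ((∏ s ∈ range z, (1 + ε s)) * gg y z k) := by
      intro t ht
      calc V t * ∏ s ∈ (range z).erase t, U s
          ≤ (ε t * π t) * ∏ s ∈ (range z).erase t, ((1 + ε s) * π s) := by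
            refine mul_le_mul (hVε t) ?_ (prod_nonneg fun s _ => hU0 s)
              (mul_nonneg (hε0 t).le (hπ0 t).le)
            exact prod_le_prod (fun s _ => hU0 s) fun s _ => hUε s
        _ = ε t * (∏ s ∈ (range z).erase t, (1 + ε s)) * (π t * ∏ s ∈ (range z).erase t, π s) := by
            rw [prod_mul_distrib]
            ring
        _ = ε t * (∏ s ∈ (range z).erase t, (1 + ε s)) * gg y z k := by
            rw [mul_prod_erase (range z) π ht, ← hgg]
        _ ≤ ε t * (∏ s ∈ range z, (1 + ε s)) * gg y z k := by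
            refine mul_le_mul_of_nonneg_right ?_ hgg0.le
            refine mul_le_mul_of_nonneg_left ?_ (hε0 t).le
            rw [← mul_prod_erase (range z) (fun s => 1 + ε s) ht]
            have h2 : 0 ≤ ∏ s ∈ (range z).erase t, (1 + ε s) :=
              prod_nonneg fun s _ => by linarith [hε0 s]
            nlinarith [hε0 t]
        _ = _ := by ring
    refine (sum_le_sum h1).trans ?_
    rw [← sum_mul]
    have h3 : ∏ t ∈ range z, (1 + ε t) ≤ 2 := by linarith
    have h4 : 0 ≤ ∏ t ∈ range z, (1 + ε t) := prod_nonneg fun t _ => by linarith [hε0 t]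
    calc (∑ t ∈ range z, ε t) * ((∏ s ∈ range z, (1 + ε s)) * gg y z k)
        ≤ (Real.exp (-(E : ℝ)) / 4) * (2 * gg y z k) := by
          refine mul_le_mul hσ2 ?_ (mul_nonneg h4 hgg0.le) (by positivity)
          exact mul_le_mul_of_nonneg_right h3 hgg0.le
      _ ≤ Real.exp (-(E : ℝ)) * gg y z k := by nlinarith [mul_pos hexp0 hgg0]
  · intro A hA
    unfold AA at hA
    rw [mem_filter, mem_powerset] at hA
    exact prod_le_of hz2 hE512 A hA.1 z fun t ht => (hA.2 t ht).trans (Nat.le_add_right _ _)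
  · intro t ht A hA
    unfold AX at hA
    rw [mem_filter, mem_powerset] at hA
    refine prod_le_of hz2 hE512 A hA.1 t fun s hs => ?_
    by_cases h : s = t
    · rw [if_pos h, h, hA.2.1]
    · rw [if_neg h]
      exact (hA.2.2 s hs h).trans (Nat.le_add_right _ _)

end Pool.Agent.Helper57.TU
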